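import Mathlib
import Pool.Agent.L7h86.AS.Poly

/-!
# The asymptotic spectrum of finite schemes

Strassen's duality for the growth of the smoothability defects of powers: the growth rate of a finite
scheme is the maximum of its values under the spectral functionals, and Q1 is the statement that no
functional exceeds the degree. A counterexample to Q1, if there is one, is detected by a functional
which is additive on disjoint unions, multiplicative on products, monotone under subquotients and
degenerations and bounded by the degree on smoothable schemes.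
-/

set_option autoImplicit false

namespace Pool.Agent.Results.MP_44217d_ag.AsymptoticSpectrum

open Pool.Agent.H826R3.SM Pool.Agent.TH671.DU Pool.Agent.N86.SQ Pool.Agent.R566.DG
open Pool.Agent.L7h86.AS
open scoped TensorProduct

/-- (1) Duality: `A` is asymptotically contained in `B` iff no functional of the spectrum is larger
on `A` than on `B`. -/
def Duality (k : Type) [Field k] : Prop :=
  ∀ A B : FA k, Nontrivial B.car →
    (AsympLe k A B ↔ ∀ φ : FA k → ℝ, InSpectrum k φ → φ A ≤ φ B)

/-- (2) The growth rate of a nonempty scheme is the maximum of its values under the functionals of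
the spectrum, also under all spectral functionals. -/
def RateIsMax (k : Type) [Field k] : Prop :=
  ∀ A : FA k, Nontrivial A.car →
    (∃ φ : FA k → ℝ, InSpectrum k φ ∧ φ A = rate k A.car) ∧
    ∀ φ : FA k → ℝ, IsSpectral k φ → φ A ≤ rate k A.car

/-- (3) Q1 for one scheme: no functional exceeds the degree; equivalently the powers are
asymptotically contained in the powers of `deg Γ` points. Q1 for all nonempty finite schemes: the
degree is the greatest functional of the spectrum. -/
def Criterion (k : Type) [Field k] : Prop :=
  (∀ A : FA k, Nontrivial A.car →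
    (QOne k A.car ↔ ∀ φ : FA k → ℝ, InSpectrum k φ → φ A ≤ Module.finrank k A.car) ∧
    (QOne k A.car ↔ AsympLe k A (FA.copies (Module.finrank k A.car) (FA.point k)))) ∧
  ((∀ A : FA k, Nontrivial A.car → QOne k A.car) ↔
    ∀ φ : FA k → ℝ, InSpectrum k φ → ∀ A : FA k, φ A ≤ Module.finrank k A.car)

/-- (4) The degree belongs to the spectrum; the number of points is the least spectral
functional. -/
def Extremes (k : Type) [Field k] : Prop :=
  InSpectrum k (fun A => (Module.finrank k A.car : ℝ)) ∧
  IsSpectral k (fun A => (Nat.card (A.car →ₐ[k] k) : ℝ)) ∧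
  ∀ φ : FA k → ℝ, IsSpectral k φ → ∀ A : FA k, (Nat.card (A.car →ₐ[k] k) : ℝ) ≤ φ A

/-- (5) Cancellation: if `C₀ ⊔ C₁ × Γ ⊔ … ⊔ C_r × Γ^r` is asymptotically contained in
`C₀ ⊔ C₁ × Γ' ⊔ … ⊔ C_r × Γ'^r`, and `C_i` is not empty for some `i ≥ 1`, then `Γ` is asymptotically
contained in `Γ'`, and the growth rate of `Γ` is at most that of `Γ'`. -/
def Cancellation (k : Type) [Field k] : Prop :=
  ∀ (r : ℕ) (C : Fin (r + 1) → FA k) (i₀ : Fin (r + 1)), i₀ ≠ 0 → Nontrivial (C i₀).car →
    ∀ A B : FA k, Nontrivial A.car → Nontrivial B.car →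
      AsympLe k (polyOf k C A) (polyOf k C B) →
      AsympLe k A B ∧ rate k A.car ≤ rate k B.car

theorem result (k : Type) [Field k] [IsAlgClosed k] :
    Duality k ∧ RateIsMax k ∧ Criterion k ∧ Extremes k ∧ Cancellation k := by
  refine ⟨fun A B hB => asympLe_iff A B, fun A hA => ⟨?_, fun φ hφ => hφ.le_rate A⟩,
    ⟨fun A hA => ⟨qOne_iff_spectral A, qOne_iff_asympLe A⟩, ?_⟩,
    ⟨⟨isSpectral_finrank, semicontinuous_finrank⟩, isSpectral_npts, fun φ hφ A => hφ.npts_le A⟩,
    ?_⟩
  · obtain ⟨φ, h1, h2, h3⟩ := exists_max A
    exact ⟨φ, ⟨h1, h2⟩, h3⟩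
  · constructor
    · intro h φ hφ A
      rcases subsingleton_or_nontrivial A.car with hs | hs
      · have h1 := hφ.1.subquotient A ⟨PUnit.{1}⟩ (IsSubquotient.of_surjective
          ({ toFun := fun _ => 0
             map_one' := Subsingleton.elim _ _
             map_zero' := rfl
             map_mul' := fun _ _ => Subsingleton.elim _ _
             map_add' := fun _ _ => Subsingleton.elim _ _
             commutes' := fun _ => Subsingleton.elim _ _ } : PUnit.{1} →ₐ[k] A.car)
          fun y => ⟨PUnit.unit, Subsingleton.elim _ _⟩)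
        rw [hφ.1.zero] at h1
        exact h1.trans (Nat.cast_nonneg _)
      · exact (qOne_iff_spectral A).1 (h A hs) φ hφ
    · intro h A hA
      exact (qOne_iff_spectral A).2 fun φ hφ => h φ hφ A
  · intro r C i₀ h0 hi A B hA hB h
    have h1 : AsympLe k A B := polyOf_cancel C i₀ h0 hi A B h
    exact ⟨h1, rate_le_of_asympLe A B h1⟩

end Pool.Agent.Results.MP_44217d_ag.AsymptoticSpectrum
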