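import Mathlib
import Pool.Agent.L7h86.GF.Main

/-!
# Q1 depends only on the characteristic

The numbers of lines through the origin whose union contains the powers of a local finite scheme, its
growth rate and Q1 for it do not change if the algebraically closed ground field is replaced by a
larger one. Conversely Q1 for all finite schemes of degree at most `D` over a large algebraically
closed field follows from Q1 for those over an algebraically closed subfield, so for each `D` it
depends only on the characteristic: a counterexample to Q1, if there is one, exists over the
algebraic closure of a prime field, in the same degree.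
-/

set_option autoImplicit false

namespace Pool.Agent.Results.MP_44217d_ag.GroundField

open Pool.Agent.H826R3.SM Pool.Agent.TH671.DU Pool.Agent.N86.SQ Pool.Agent.L7h86.GF
open scoped TensorProduct

/-- `k ⊆ K` and `L` are algebraically closed fields, `A` is a finite-dimensional commutative algebra,
`Γ = Spec A`, `K ⊗ A` is the coordinate ring of the base change `Γ_K`, `Pow k A n` that of `Γ^n`,
`QOne k A` is Q1 for `Γ`, `lineNumber k (Pow k A n)` is the least number of lines through the origin
of an affine space whose union contains `Γ^n` (embedded with its closed point in the origin), and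
`rate k A` is the limit of `(deg Γ^n + δ(Γ^n))^{1/n}`.

(1) For local `Γ` over `k` the base change `Γ_K` is local, the line numbers of all powers, the growth
rates and Q1 are the same for `Γ` over `k` and for `Γ_K` over `K`. (2) For each degree `d` and real
`x` the growth rates of all local `k`-schemes of degree `d` are at most `x` if and only if those of
all local `K`-schemes of degree `d` are. (3) `QAll k D` (Q1 holds for all nonempty finite `k`-schemes
of degree at most `D`) is equivalent to `QAll K D`. (4) If `K` and `L` have the same characteristic
then `QAll K D` and `QAll L D` are equivalent, for each `D`; and Q1 for all nonempty finite schemes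
over `K` is equivalent to Q1 for all those over `L`. -/
theorem result :
    (∀ (k K : Type) [Field k] [IsAlgClosed k] [Field K] [IsAlgClosed K] [Algebra k K],
      (∀ (A : Type) [CommRing A] [Algebra k A] [Module.Finite k A] [IsLocalRing A],
        IsLocalRing (K ⊗[k] A) ∧
        (∀ n : ℕ, lineNumber K (Pow K (K ⊗[k] A) n) = lineNumber k (Pow k A n)) ∧
        rate K (K ⊗[k] A) = rate k A ∧ (QOne K (K ⊗[k] A) ↔ QOne k A)) ∧
      (∀ (d : ℕ) (x : ℝ),
        (∀ (A : Type) [CommRing A] [Algebra k A] [Module.Finite k A] [IsLocalRing A],
          Module.finrank k A = d → rate k A ≤ x) ↔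
        ∀ (A : Type) [CommRing A] [Algebra K A] [Module.Finite K A] [IsLocalRing A],
          Module.finrank K A = d → rate K A ≤ x) ∧
      ∀ D : ℕ, QAll k D ↔ QAll K D) ∧
    (∀ (K L : Type) [Field K] [IsAlgClosed K] [Field L] [IsAlgClosed L] (p : ℕ) [CharP K p]
      [CharP L p], (∀ D : ℕ, QAll K D ↔ QAll L D) ∧
      ((∀ (A : Type) [CommRing A] [Algebra K A] [Module.Finite K A] [Nontrivial A], QOne K A) ↔
        ∀ (A : Type) [CommRing A] [Algebra L A] [Module.Finite L A] [Nontrivial A],
          QOne L A)) := by
  refine ⟨?_, ?_⟩
  · intro k K _ _ _ _ _
    refine ⟨fun A _ _ _ _ => ⟨local_baseChange A, lineNumber_eq A, rate_eq_baseChange A,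
      qOne_baseChange k K A⟩, bounds_iff k K, qAll_iff k K⟩
  · intro K L _ _ _ _ p _ _
    refine ⟨qAll_char K L p, ?_⟩
    constructor
    · intro h A _ _ _ _
      exact (qAll_char K L p (Module.finrank L A)).1 (fun A _ _ _ _ _ => h A) A le_rfl
    · intro h A _ _ _ _
      exact (qAll_char K L p (Module.finrank K A)).2 (fun A _ _ _ _ _ => h A) A le_rfl

end Pool.Agent.Results.MP_44217d_ag.GroundField
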