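import Mathlib
import Pool.Agent.L7h86.PS.Main

/-!
# Q1 is a statement on primitive Gorenstein schemes

A local finite scheme is called primitive if it does not lie in the Zariski closure of the finite
schemes of the same degree which are not connected, or products of two smaller schemes, or covers of
degree at least two (pulled back from covers of affine spaces) of smaller schemes. Q1 for all finite
schemes is equivalent to Q1 for the primitive Gorenstein schemes. More generally, in every class of
schemes which contains the parts of its disconnected members, and up to every degree, all bounds of
the growth rate by powers of the degree (Q1 is the bound with the exponent one) hold for all members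
of the class if they hold for the primitive ones, or for a dense set of primitive ones.
-/

set_option autoImplicit false

namespace Pool.Agent.Results.MP_44217d_ag.PrimitiveSchemes

open Pool.Agent.H826R3.SM Pool.Agent.TH671.DU Pool.Agent.L7h86.PS

/-- Let `k` be an algebraically closed field of any characteristic. All algebras are commutative
`k`-algebras; `QOne k A` is Q1 for `Γ = Spec A`; `rate k A` is the limit of
`(deg Γ^n + δ(Γ^n))^{1/n}`; `Bound k τ A` means `rate k A ≤ (deg Γ)^τ`; `Bound k 1 A` is equivalent
to `QOne k A`; `Gor k A`: `Γ` is Gorenstein; `univ k` is the class of all algebras.

`Decomposable k C E`: `Spec E` is not connected, or a product of two schemes of degree at least two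
of the class `C`, or a cover of degree at least two of a scheme of the class `C`, pulled back from a
cover of an affine space. `InClosure k Z A`: `A` lies in the Zariski closure (in the space of
structure constants) of the algebras of the class `Z` of the same dimension. `Primitive k C A`: `A`
is a local algebra of the class `C` and does not lie in the Zariski closure of the members of `C`
which are decomposable for `C`. `HasParts k C`: if `Spec A ⊔ Spec B` is in `C` then so are `Spec A`
and `Spec B`.

(1) Q1 holds for all nonempty finite schemes if and only if it holds for all primitive Gorenstein
schemes. (2) The same for the bounds with any exponent `τ ≥ 1`. (3) For each class `C` with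
`HasParts` and each degree `D` the bound holds for all schemes of degree at most `D` in `C` if and
only if it holds for the primitive ones. (4) For this it suffices to have the bound for the members
of any class `Z` such that all primitive members of `C` of degree at most `D` lie in the Zariski
closure of the class `Z` (for example for general points of the components of the locus of the
primitive members). -/
theorem result (k : Type) [Field k] [IsAlgClosed k] :
    ((∀ (A : Type) [CommRing A] [Algebra k A] [Module.Finite k A] [Nontrivial A], QOne k A) ↔
      ∀ (A : Type) [CommRing A] [Algebra k A] [Module.Finite k A] [Nontrivial A],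
        Gor k A → Primitive k (univ k) A → QOne k A) ∧
    (∀ τ : ℝ, 1 ≤ τ →
      ((∀ (A : Type) [CommRing A] [Algebra k A] [Module.Finite k A] [Nontrivial A],
        Bound k τ A) ↔
      ∀ (A : Type) [CommRing A] [Algebra k A] [Module.Finite k A] [Nontrivial A],
        Gor k A → Primitive k (univ k) A → Bound k τ A)) ∧
    (∀ C : Cls k, HasParts k C → ∀ (D : ℕ) (τ : ℝ), 1 ≤ τ →
      ((∀ (A : Type) [CommRing A] [Algebra k A] [Module.Finite k A] [Nontrivial A],
        C A → Module.finrank k A ≤ D → Bound k τ A) ↔
      ∀ (A : Type) [CommRing A] [Algebra k A] [Module.Finite k A] [Nontrivial A],
        Primitive k C A → Module.finrank k A ≤ D → Bound k τ A)) ∧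
    (∀ C Z : Cls k, HasParts k C → ∀ (D : ℕ) (τ : ℝ), 1 ≤ τ →
      (∀ (A : Type) [CommRing A] [Algebra k A] [Module.Finite k A] [Nontrivial A],
        Primitive k C A → Module.finrank k A ≤ D → InClosure k Z A) →
      (∀ (A : Type) [CommRing A] [Algebra k A] [Module.Finite k A] [Nontrivial A],
        Z A → Module.finrank k A ≤ D → Bound k τ A) →
      ∀ (A : Type) [CommRing A] [Algebra k A] [Module.Finite k A] [Nontrivial A],
        C A → Module.finrank k A ≤ D → Bound k τ A) ∧
    (∀ (A : Type) [CommRing A] [Algebra k A] [Module.Finite k A] [Nontrivial A],
      Bound k 1 A ↔ QOne k A) := by
  refine ⟨?_, fun τ hτ => bound_all_iff k hτ, fun C hC D τ hτ => bound_iff_primitive hτ C hC D,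
    fun C Z hC D τ hτ hp hZ A _ _ _ _ hA hD => bound_of_primitive hτ C hC D Z hZ hp _ A hA rfl hD,
    fun A _ _ _ _ => bound_one⟩
  have h := bound_all_iff k (le_refl (1 : ℝ))
  constructor
  · intro h1 A _ _ _ _ _ _
    exact h1 A
  · intro h1 A _ _ _ _
    refine bound_one.1 (h.2 (fun A _ _ _ _ hA hP => bound_one.2 (h1 A hA hP)) A)

end Pool.Agent.Results.MP_44217d_ag.PrimitiveSchemes
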