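import Mathlib
import Pool.Agent.L7h86.UP.Main

/-!
# Q1 is uniform, and passes from characteristic zero to large characteristics

If Q1 holds for all finite schemes of degree at most `D` over one algebraically closed field of
characteristic `p` then the ratios of Q1 tend to zero uniformly in all finite schemes of degree at
most `D` over all algebraically closed fields of characteristic `p`; if `p = 0` then, for each fixed
`ε`, also uniformly over all algebraically closed fields of sufficiently large characteristic.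
-/

set_option autoImplicit false

namespace Pool.Agent.Results.MP_44217d_ag.UniformQ1

open Pool.Agent.H826R3.SM Pool.Agent.TH671.DU Pool.Agent.L7h86.GF Pool.Agent.L7h86.PS
open Pool.Agent.L7h86.UP
open Filter Topology

/-- `K₀` is an algebraically closed field of characteristic `p`. `BAll K₀ τ D`: the growth rates
`lim (deg Γ^n + δ(Γ^n))^{1/n}` of all nonempty finite `K₀`-schemes of degree at most `D` are at most
`(deg Γ)^τ`; `QAll K₀ D`: Q1 holds for all of them (equivalent to `BAll K₀ 1 D`).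

(1) `BAll K₀ τ D` with `τ ≥ 1` implies for each `η > 0` a bound
`deg Γ^n + δ(Γ^n) ≤ C ((1+η) (deg Γ)^τ)^n` with the same constant `C` for all nonempty finite schemes
`Γ` of degree at most `D` over all algebraically closed fields of characteristic `p`. (2) If `p = 0`
then the same holds, with a number `P` and a constant `C` which depend on `τ`, `η`, `D`, over all
algebraically closed fields of characteristic zero or at least `P`. (3) `QAll K₀ D` is equivalent to:
the ratios of Q1 tend to zero uniformly in all nonempty finite schemes of degree at most `D` over all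
algebraically closed fields of characteristic `p`. (4) If `p = 0` then `QAll K₀ D` implies for each
`ε > 0` and `θ > 0` that there are `P` and `n₀` such that the ratios of Q1 for this `ε` are at most
`θ` for all `n ≥ n₀`, for all nonempty finite schemes of degree at most `D` over all algebraically
closed fields of characteristic zero or at least `P`. -/
theorem result (p : ℕ) (K₀ : Type) [Field K₀] [IsAlgClosed K₀] [CharP K₀ p] (D : ℕ) :
    (∀ τ : ℝ, 1 ≤ τ → BAll K₀ τ D → ∀ η : ℝ, 0 < η → ∃ C : ℝ, 0 ≤ C ∧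
      ∀ (K : Type) [Field K] [IsAlgClosed K] [CharP K p] (A : Type) [CommRing A] [Algebra K A]
        [Module.Finite K A] [Nontrivial A], Module.finrank K A ≤ D → ∀ n : ℕ,
          (Module.finrank K A : ℝ) ^ n + defect K (Pow K A n) ≤
            C * ((1 + η) * (Module.finrank K A : ℝ) ^ τ) ^ n) ∧
    (p = 0 → ∀ τ : ℝ, 1 ≤ τ → BAll K₀ τ D → ∀ η : ℝ, 0 < η → ∃ (P : ℕ) (C : ℝ), 0 ≤ C ∧
      ∀ (K : Type) [Field K] [IsAlgClosed K], (ringChar K = 0 ∨ P ≤ ringChar K) →
        ∀ (A : Type) [CommRing A] [Algebra K A] [Module.Finite K A] [Nontrivial A],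
          Module.finrank K A ≤ D → ∀ n : ℕ,
            (Module.finrank K A : ℝ) ^ n + defect K (Pow K A n) ≤
              C * ((1 + η) * (Module.finrank K A : ℝ) ^ τ) ^ n) ∧
    (QAll K₀ D ↔ ∀ ε : ℝ, 0 < ε → ∀ θ : ℝ, 0 < θ → ∃ n₀ : ℕ, ∀ n, n₀ ≤ n →
      ∀ (K : Type) [Field K] [IsAlgClosed K] [CharP K p] (A : Type) [CommRing A] [Algebra K A]
        [Module.Finite K A] [Nontrivial A], Module.finrank K A ≤ D →
          (defect K (Pow K A n) : ℝ) ≤ θ * (Module.finrank K A : ℝ) ^ ((1 + ε) * (n : ℝ))) ∧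
    (p = 0 → QAll K₀ D → ∀ ε : ℝ, 0 < ε → ∀ θ : ℝ, 0 < θ → ∃ P n₀ : ℕ, ∀ n, n₀ ≤ n →
      ∀ (K : Type) [Field K] [IsAlgClosed K], (ringChar K = 0 ∨ P ≤ ringChar K) →
        ∀ (A : Type) [CommRing A] [Algebra K A] [Module.Finite K A] [Nontrivial A],
          Module.finrank K A ≤ D →
            (defect K (Pow K A n) : ℝ) ≤ θ * (Module.finrank K A : ℝ) ^ ((1 + ε) * (n : ℝ))) ∧
    (BAll K₀ 1 D ↔ QAll K₀ D) := by
  have key1 : ∀ τ : ℝ, 1 ≤ τ → BAll K₀ τ D → ∀ η : ℝ, 0 < η → ∃ C : ℝ, 0 ≤ C ∧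
      ∀ (K : Type) [Field K] [IsAlgClosed K] [CharP K p] (A : Type) [CommRing A] [Algebra K A]
        [Module.Finite K A] [Nontrivial A], Module.finrank K A ≤ D → ∀ n : ℕ,
          (Module.finrank K A : ℝ) ^ n + defect K (Pow K A n) ≤
            C * ((1 + η) * (Module.finrank K A : ℝ) ^ τ) ^ n := by
    intro τ hτ h η hη
    obtain ⟨P, C, hC, h1⟩ := uniform_bAll (fun _ F _ => CharP F p) (compat_char p)
      (fun _ _ _ _ _ h => h) K₀ hτ D h η hη
    exact ⟨C, hC, fun K _ _ hK A _ _ _ _ hA n => h1 K hK A hA n⟩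
  have key2 : p = 0 → ∀ τ : ℝ, 1 ≤ τ → BAll K₀ τ D → ∀ η : ℝ, 0 < η → ∃ (P : ℕ) (C : ℝ), 0 ≤ C ∧
      ∀ (K : Type) [Field K] [IsAlgClosed K], (ringChar K = 0 ∨ P ≤ ringChar K) →
        ∀ (A : Type) [CommRing A] [Algebra K A] [Module.Finite K A] [Nontrivial A],
          Module.finrank K A ≤ D → ∀ n : ℕ,
            (Module.finrank K A : ℝ) ^ n + defect K (Pow K A n) ≤
              C * ((1 + η) * (Module.finrank K A : ℝ) ^ τ) ^ n := by
    rintro rfl τ hτ h η hη
    exact uniform_bAll (fun N F _ => ringChar F = 0 ∨ N ≤ ringChar F) compat_zero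
      mono_zero K₀ hτ D h η hη
  refine ⟨key1, key2, ⟨?_, ?_⟩, ?_, bAll_one K₀ D⟩
  · intro h ε hε θ hθ
    have h2 : (1 : ℝ) < 2 ^ ε := Real.one_lt_rpow (by norm_num) hε
    obtain ⟨C, hC, h1⟩ := key1 1 le_rfl ((bAll_one K₀ D).2 h) (((2 : ℝ) ^ ε - 1) / 2)
      (by linarith)
    obtain ⟨n₀, hn₀⟩ := limit_of_bound hε hC θ hθ
    exact ⟨n₀, fun n hn K _ _ _ A _ _ _ _ hA => hn₀ n hn K A (h1 K A hA n)⟩
  · intro h A _ _ _ _ hA ε hε
    rw [Metric.tendsto_atTop]
    intro θ hθ
    obtain ⟨n₀, hn₀⟩ := h ε hε (θ / 2) (by linarith)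
    refine ⟨n₀, fun n hn => ?_⟩
    have h1 := hn₀ n hn K₀ A hA
    have hpos : 0 < Module.finrank K₀ A := Module.finrank_pos
    have hd0 : (0 : ℝ) < Module.finrank K₀ A := by exact_mod_cast hpos
    have h2 : (0 : ℝ) < (Module.finrank K₀ A : ℝ) ^ ((1 + ε) * (n : ℝ)) :=
      Real.rpow_pos_of_pos hd0 _
    rw [Real.dist_eq, sub_zero, abs_of_nonneg (by positivity)]
    have h3 := (div_le_iff₀ h2).2 h1
    linarith
  · intro hp h ε hε θ hθ
    have h2 : (1 : ℝ) < 2 ^ ε := Real.one_lt_rpow (by norm_num) hε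
    obtain ⟨P, C, hC, h1⟩ := key2 hp 1 le_rfl ((bAll_one K₀ D).2 h) (((2 : ℝ) ^ ε - 1) / 2)
      (by linarith)
    obtain ⟨n₀, hn₀⟩ := limit_of_bound hε hC θ hθ
    exact ⟨P, n₀, fun n hn K _ _ hK A _ _ _ _ hA => hn₀ n hn K A (h1 K hK A hA n)⟩

end Pool.Agent.Results.MP_44217d_ag.UniformQ1
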